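import Pool.Agent.helper62.DP8.Spec

set_option autoImplicit false

namespace Pool.Agent.helper62.DP8

/-- The injection: every colour of the vertex `i + 1` has a chosen pair, different colours have different pairs, and the choice is onto. -/
theorem PRT_aux (g : ℕ) (W : Type) (a : ℕ → Finset W) (R : W → W → Prop) (t : ℕ → Bool → W → Prop) (hC : Cyc g W a R t)
    (h : ∀ i, ∀ x ∈ a (i + 1), ∃ j s, i ≤ j ∧ j ≤ i + 2 ∧ t j s x) (i : ℕ) :
    ∃ q : W → Fin 3 × Bool, (∀ x ∈ a (i + 1), t (i + (q x).1.val) (q x).2 x) ∧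
      (∀ p : Fin 3 × Bool, ∃ x ∈ a (i + 1), q x = p) := by
  classical
  have h1 : ∀ x : W, ∃ p : Fin 3 × Bool, x ∈ a (i + 1) → t (i + p.1.val) p.2 x := by
    intro x
    by_cases hx : x ∈ a (i + 1)
    · obtain ⟨j, s, hj1, hj2, hj3⟩ := h i x hx
      refine ⟨(⟨j - i, by omega⟩, s), fun _ => ?_⟩
      have : i + (j - i) = j := by omega
      simpa [this] using hj3
    · exact ⟨(0, true), fun h2 => absurd h2 hx⟩
  choose q hq using h1
  have hinj : Set.InjOn q (a (i + 1)) := by
    intro x hx y hy hxy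
    have hx1 := hq x hx
    have hy1 := hq y hy
    rw [← hxy] at hy1
    exact hC.one i (i + (q x).1.val) (q x).2 (by omega) (by have := (q x).1.isLt; omega) x hx y hy hx1 hy1
  have hcard : ((a (i + 1)).image q).card = (a (i + 1)).card := Finset.card_image_of_injOn hinj
  have h6 := hC.six (i + 1)
  have huniv : (a (i + 1)).image q = Finset.univ := by
    refine Finset.eq_univ_of_card _ ?_
    have hc : Fintype.card (Fin 3 × Bool) = 6 := by simp
    have hle : ((a (i + 1)).image q).card ≤ Fintype.card (Fin 3 × Bool) := Finset.card_le_univ _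
    omega
  refine ⟨q, fun x hx => hq x hx, ?_⟩
  intro p
  have hp : p ∈ (a (i + 1)).image q := by rw [huniv]; exact Finset.mem_univ _
  obtain ⟨x, hx, hxp⟩ := Finset.mem_image.mp hp
  exact ⟨x, hx, hxp⟩

theorem PRT : PRT_stmt := by
  intro g W a R t hC h
  refine ⟨?_, ?_⟩
  · intro i j s hj1 hj2
    obtain ⟨q, hq1, hq2⟩ := PRT_aux g W a R t hC h i
    obtain ⟨x, hx, hxp⟩ := hq2 (⟨j - i, by omega⟩, s)
    refine ⟨x, hx, ?_⟩
    have h1 := hq1 x hx
    rw [hxp] at h1
    have : i + (j - i) = j := by omega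
    simpa [this] using h1
  · intro i x hx j j' s s' hj1 hj2 hj1' hj2' ht ht'
    obtain ⟨q, hq1, hq2⟩ := PRT_aux g W a R t hC h i
    -- every pair touched by `x` is the chosen pair of `x`
    have key : ∀ (k : ℕ) (r : Bool) (_ : i ≤ k) (_ : k ≤ i + 2), t k r x → q x = (⟨k - i, by omega⟩, r) := by
      intro k r hk1 hk2 hk3
      obtain ⟨y, hy, hyp⟩ := hq2 (⟨k - i, by omega⟩, r)
      have h1 := hq1 y hy
      rw [hyp] at h1
      have hki : i + (k - i) = k := by omega
      have h2 : t k r y := by simpa [hki] using h1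
      have hxy : x = y := hC.one i k r hk1 hk2 x hx y hy hk3 h2
      rw [hxy]
      exact hyp
    have e1 := key j s hj1 hj2 ht
    have e2 := key j' s' hj1' hj2' ht'
    rw [e1] at e2
    have e3 := congrArg (fun p : Fin 3 × Bool => p.1.val) e2
    have e4 := congrArg (fun p : Fin 3 × Bool => p.2) e2
    simp only at e3 e4
    exact ⟨by omega, e4⟩

end Pool.Agent.helper62.DP8
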