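import Pool.Agent.helper62.DP8.Spec

set_option autoImplicit false

namespace Pool.Agent.helper62.DP8

theorem WTB_force {α : Type} (n : ℕ) (k : ℕ → α) : force n k = k n := by
  cases n <;> rfl

theorem WTB_with (α : Type) (g : ℕ) (s : St) (k : Tb → α) : withTb g s k = k (tbl g s) := by
  unfold tbl withTb
  simp only [WTB_force, id]

theorem WTB : WTB_stmt := by
  refine ⟨WTB_with, ?_, ?_, ?_⟩
  · intro g s
    have h : tbl g s = withTb g s id := rfl
    unfold withTb at h
    simp only [WTB_force, id] at h
    rw [h]
    exact ⟨rfl, rfl, rfl, rfl, rfl, rfl, rfl⟩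
  · intro n R
    rfl
  · intro n R k
    show force (ball n R k) _ = _
    rw [WTB_force]

end Pool.Agent.helper62.DP8
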